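import Mathlib

/-! An upper bound for the fractional dimension of the convex geometries P(k,n). -/

open Finset
open scoped Classical

namespace Pool.Agent.Results.MP_4df60b_co.Upper

/-- the members of P(k,n); the element `x` of `Fin n` stands for `x + 1` -/
abbrev P (k n : ℕ) : Type := {A : Finset (Fin n) // ∀ x : Fin n, x.val + k < A.card → x ∈ A}

/-- `r` is a linear order on the poset that extends its order -/
def IsLinExt {α : Type} [PartialOrder α] (r : α → α → Prop) : Prop :=
  IsLinearOrder α r ∧ ∀ a b, a ≤ b → r a b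

/-- fractional realizers -/
def IsRealizer {α : Type} [PartialOrder α] [Fintype α] (w : (α → α → Prop) → ℝ) : Prop :=
  (∀ r, 0 ≤ w r) ∧ ∀ a b : α, ¬ a ≤ b → ¬ b ≤ a → 1 ≤ ∑ r with IsLinExt r ∧ r b a, w r

/-- fractional dimension of a finite poset that is not a chain -/
noncomputable def fdim (α : Type) [PartialOrder α] [Fintype α] : ℝ :=
  sInf {s | ∃ w : (α → α → Prop) → ℝ, IsRealizer w ∧ s = ∑ r with IsLinExt r, w r}

variable {k n : ℕ}

def f (F : Fin n → Bool) (X : P k n) : ℕ := (X.1.filter fun i => F i).sup fun i => i.val + 1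

def L (F : Fin n → Bool) (X Y : P k n) : Prop :=
  toLex (f F X, toColex X.1) ≤ toLex (f F Y, toColex Y.1)

lemma L_ext (F : Fin n → Bool) : IsLinExt (L (k := k) F) := by
  refine ⟨{ refl := fun _ => le_rfl
            trans := fun _ _ _ => le_trans
            antisymm := ?_
            total := fun _ _ => le_total _ _ }, fun a b h => ?_⟩
  · intro a b h1 h2
    have := congrArg (fun z => ofColex (ofLex z).2) (le_antisymm h1 h2)
    exact Subtype.ext this
  · exact Prod.Lex.toLex_mono ⟨sup_mono (filter_subset_filter _ h), Colex.toColex_mono h⟩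

lemma prob (q : Bool → ℝ) (hq : q true + q false = 1) (x : Fin n) (S : Finset (Fin n))
    (hx : x ∉ S) : ∑ F : Fin n → Bool with F x = true ∧ ∀ i ∈ S, F i = false, ∏ i, q (F i) =
      q true * q false ^ S.card := by
  let t : Fin n → Finset Bool := fun i => if i = x then {true} else if i ∈ S then {false} else univ
  have h1 : (univ.filter fun F : Fin n → Bool => F x = true ∧ ∀ i ∈ S, F i = false) =
      Fintype.piFinset t := by
    ext F
    simp only [mem_filter, mem_univ, true_and, Fintype.mem_piFinset, t]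
    constructor
    · rintro ⟨h1, h2⟩ i
      split_ifs with a b
      · simp [a, h1]
      · simp [h2 i b]
      · simp
    · intro h
      refine ⟨by simpa using h x, fun i hi => ?_⟩
      have := h i
      rw [if_neg (by rintro rfl; exact hx hi), if_pos hi] at this
      simpa using this
  rw [h1, ← prod_univ_sum t fun _ b => q b, ← mul_prod_erase univ _ (mem_univ x)]
  congr 1
  · simp [t]
  · rw [← prod_const, eq_comm]
    apply prod_subset_one_on_sdiff
    · intro i hi
      exact mem_erase.mpr ⟨by rintro rfl; exact hx hi, mem_univ _⟩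
    · intro i hi
      have := mem_sdiff.mp hi
      simp [t, (mem_erase.mp this.1).1, this.2, hq]
    · intro i hi
      have : i ≠ x := by rintro rfl; exact hx hi
      simp [t, this, hi]

lemma few (B : P k n) {x : Fin n} (hx : x ∉ B.1) : (B.1.filter fun i => x < i).card ≤ k := by
  by_contra h
  push Not at h
  have h1 := card_filter_add_card_filter_not (s := B.1) fun i => x < i
  have h2 : B.1.card ≤ x.val + k := not_lt.mp fun h => hx (B.2 x h)
  have h3 : Iio (⟨B.1.card - k, by omega⟩ : Fin n) ⊆ B.1.filter fun i => ¬ x < i := by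
    intro y hy
    have : y.val < B.1.card - k := Fin.lt_def.mp (mem_Iio.mp hy)
    exact mem_filter.mpr ⟨B.2 y (by omega), not_lt.mpr (Fin.le_def.mpr (by omega))⟩
  have h4 := card_le_card h3
  rw [Fin.card_Iio] at h4
  simp only at h4
  omega

theorem result (k n : ℕ) (hk : 1 ≤ k) (_hn : k + 2 ≤ n) :
    fdim (P k n) ≤ ((k : ℝ) + 1) ^ (k + 1) / (k : ℝ) ^ k := by
  have hk' : (0 : ℝ) < k := by exact_mod_cast hk
  set c : ℝ := ((k : ℝ) + 1) ^ (k + 1) / (k : ℝ) ^ k with hc
  have hc0 : 0 ≤ c := by positivity
  let q : Bool → ℝ := fun b => if b then 1 / (k + 1) else k / (k + 1)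
  have hq0 : ∀ b, 0 ≤ q b := fun b => by cases b <;> simp only [q] <;> positivity
  have hq : q true + q false = 1 := by simp only [q]; simp; field_simp; ring
  have hm : ∀ F : Fin n → Bool, 0 ≤ ∏ i, q (F i) := fun F => prod_nonneg fun _ _ => hq0 _
  let w : (P k n → P k n → Prop) → ℝ := fun r => ∑ F with L F = r, c * ∏ i, q (F i)
  have hw : ∀ t : Finset (P k n → P k n → Prop),
      ∑ r ∈ t, w r = c * ∑ F with L F ∈ t, ∏ i, q (F i) := by
    intro t
    rw [mul_sum, ← sum_fiberwise_of_maps_to (s := univ.filter fun F => L F ∈ t)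
      (t := t) (g := L) (fun F hF => by simpa using hF)]
    refine sum_congr rfl fun r hr => sum_congr ?_ fun _ _ => rfl
    ext F
    simp only [mem_filter, mem_univ, true_and] at hr ⊢
    exact ⟨fun h => ⟨h ▸ hr, h⟩, fun h => h.2⟩
  apply csInf_le
  · refine ⟨0, ?_⟩
    rintro _ ⟨v, hv, rfl⟩
    exact sum_nonneg fun r _ => hv.1 r
  · refine ⟨w, ⟨fun r => sum_nonneg fun F _ => mul_nonneg hc0 (hm F), fun a b hab _ => ?_⟩, ?_⟩
    · obtain ⟨x, hxa, hxb⟩ := not_subset.mp hab
      have h1 := prob q hq x (b.1.filter fun i => x < i) (by simp)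
      have h2 : c * (q true * q false ^ k) = 1 := by
        simp only [q, hc]; simp [div_pow]; field_simp; ring
      have h3 : q false ^ k ≤ q false ^ (b.1.filter fun i => x < i).card :=
        pow_le_pow_of_le_one (hq0 _) (by linarith [hq0 true]) (few b hxb)
      rw [hw, ← h2]
      apply mul_le_mul_of_nonneg_left _ hc0
      refine (mul_le_mul_of_nonneg_left h3 (hq0 _)).trans (h1.ge.trans ?_)
      apply sum_le_sum_of_subset_of_nonneg _ fun F _ _ => hm F
      intro F hF
      obtain ⟨h4, h5⟩ := (mem_filter.mp hF).2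
      refine mem_filter.mpr ⟨mem_univ _, mem_filter.mpr ⟨@mem_univ _ (_) _, L_ext F,
        (Prod.Lex.toLex_lt_toLex.mpr (Or.inl ?_)).le⟩⟩
      refine lt_of_lt_of_le (b := x.val + 1) (Nat.lt_succ_of_le (Finset.sup_le fun i hi => ?_))
        (le_sup (f := fun i : Fin n => i.val + 1) (mem_filter.mpr ⟨hxa, h4⟩))
      obtain ⟨h6, h7⟩ := mem_filter.mp hi
      rcases lt_trichotomy i x with h | h | h
      · exact h
      · exact absurd (h ▸ h6) hxb
      · rw [h5 i (mem_filter.mpr ⟨h6, h⟩)] at h7
        exact absurd h7 (by simp)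
    · rw [hw, filter_true_of_mem, ← Fintype.piFinset_univ,
        ← prod_univ_sum (fun _ => univ) fun _ b => q b]
      · simp [hq]
      · exact fun F _ => mem_filter.mpr ⟨@mem_univ _ (_) _, L_ext F⟩

end Pool.Agent.Results.MP_4df60b_co.Upper
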